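import Pool.Agent.T6.H89.ITM.Bounded
import Pool.Agent.T6.H89.ITM.Fam
import Pool.Agent.T6.H89.ITM.Classify

/-!
# Bounded clique-width for graphs excluding an induced topological minor

Clique-width is bounded on the class of `H`-induced-topological-minor-free graphs if and only if `H`
is an induced subgraph of the path `P₄`, of the paw or of the diamond.

* `Subdivision`, `InducedTopMinor` are defined in `Pool.Agent.T6.H89.ITM.Basic`.
* `cliqueWidth`, `paw`, `diamond` are defined in `Pool.Agent.H175R2.Defs`.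
* `SimpleGraph.pathGraph 4` is the path on four vertices, and `Nonempty (H ↪g X)` says that `H` is
  isomorphic to an induced subgraph of `X`.
-/

set_option autoImplicit false

namespace Pool.Agent.Results.MP_d0d08e_co.Classification

open Pool.Agent.T6.H89.ITM
open Pool.Agent.H175R2 (cliqueWidth paw diamond CwLE CwBuilt)

lemma exists_cwLE {V : Type} [Finite V] [Nonempty V] (G : SimpleGraph V) : ∃ k, CwLE G k := by
  classical
  have : Fintype V := Fintype.ofFinite V
  have ht : Pool.Agent.H175R2.Tame G (Fintype.card V) :=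
    ⟨Finset.univ, by simp, fun x hx => by simp at hx⟩
  exact ⟨_, Pool.Agent.H175R2.cwLE_of_dt (Pool.Agent.H175R2.dt_of_tame ht)⟩

lemma cwLE_cliqueWidth {V : Type} [Finite V] [Nonempty V] (G : SimpleGraph V) :
    CwLE G (cliqueWidth G) :=
  Nat.sInf_mem (s := {k | CwLE G k}) (exists_cwLE G)

lemma nonempty_of_built {k : ℕ} {W : Type} {G' : SimpleGraph W} {l : W → Fin k}
    (hb : CwBuilt k W G' l) : Nonempty W := by
  induction hb with
  | single i => exact ⟨()⟩
  | union V W G H l m _ _ ih1 _ => obtain ⟨v⟩ := ih1; exact ⟨Sum.inl v⟩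
  | join V G l i j _ _ ih => exact ih
  | relabel V G l i j _ ih => exact ih

lemma cliqueWidth_of_isEmpty {V : Type} [IsEmpty V] (G : SimpleGraph V) : cliqueWidth G = 0 := by
  have h1 : {k | CwLE G k} = ∅ := by
    ext k
    refine iff_of_false ?_ (Set.notMem_empty k)
    rintro ⟨W, G', l, hb, ⟨e⟩⟩
    obtain ⟨w⟩ := nonempty_of_built hb
    exact IsEmpty.false (e.symm w)
  unfold cliqueWidth
  rw [h1]
  simp

lemma bounded_of {W : Type} {H : SimpleGraph W} {X : SimpleGraph (Fin 4)} (f : H ↪g X)
    (hX : ∀ (V : Type) [Fintype V] [Nonempty V] (G : SimpleGraph V), ¬ InducedTopMinor X G →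
      Pool.Agent.H175R2.DT G 3 Finset.univ Finset.univ) :
    ∃ c : ℕ, ∀ (V : Type) [Finite V] (G : SimpleGraph V), ¬ InducedTopMinor H G →
      cliqueWidth G ≤ c := by
  classical
  refine ⟨3 * (3 + 1), fun V _ G hG => ?_⟩
  have : Fintype V := Fintype.ofFinite V
  rcases isEmpty_or_nonempty V with hV | hV
  · rw [cliqueWidth_of_isEmpty]; omega
  · exact Pool.Agent.H175R2.cliqueWidth_le_of_dt
      (hX V G (fun h => hG (h.of_embedding f)))

lemma unbounded_of {W : Type} {H : SimpleGraph W} (P : ∀ {V : Type}, SimpleGraph V → Prop)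
    (hm : MonoProp @P) (hs : StableProp @P) (hH : P H) {V : ℕ → Type} (hfin : ∀ n, Finite (V n))
    (hne : ∀ n, 2 ≤ n → Nonempty (V n)) (fam : ∀ n, SimpleGraph (V n))
    (hu : ∀ c N : ℕ, ∃ n ≥ N, ∀ k ≤ c, ¬ CwLE (fam n) k) (hno : ∀ n, ¬ P (fam n)) :
    ¬ ∃ c : ℕ, ∀ (V : Type) [Finite V] (G : SimpleGraph V), ¬ InducedTopMinor H G →
      cliqueWidth G ≤ c := by
  rintro ⟨c, hc⟩
  obtain ⟨n, hn, hk⟩ := hu c 2
  have := hfin n
  have := hne n hn
  exact hk _ (hc (V n) (fam n) (fun h => hno n (prop_of_itm @P hm hs h hH)))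
    (cwLE_cliqueWidth (fam n))

/-- **Q1.** For a finite graph `H`, clique-width is bounded on the class of (finite) graphs without
`H` as an induced topological minor if and only if `H` is an induced subgraph of `P₄`, of the paw, or
of the diamond. -/
theorem result {W : Type} [Finite W] (H : SimpleGraph W) :
    (∃ c : ℕ, ∀ (V : Type) [Finite V] (G : SimpleGraph V), ¬ InducedTopMinor H G →
      cliqueWidth G ≤ c) ↔
    (Nonempty (H ↪g SimpleGraph.pathGraph 4) ∨ Nonempty (H ↪g paw) ∨ Nonempty (H ↪g diamond)) := by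
  constructor
  · intro hb
    apply classify
    have n1 : ∀ n, 2 ≤ n → Nonempty (Fin n ⊕ (Fin n × Fin n)) := fun n hn =>
      ⟨Sum.inl ⟨0, by omega⟩⟩
    rintro (h | h | h | h | h | h)
    · exact unbounded_of @I3 I3_mono I3_stable h (fun n => inferInstance) n1
        (fun n => Pool.Agent.H175R2.famCobip n) Pool.Agent.H175R2.famCobip_unbounded
        cobip_not_I3 hb
    · exact unbounded_of @M2 M2_mono M2_stable h (fun n => inferInstance) n1
        (fun n => Pool.Agent.H175R2.famSplit n) Pool.Agent.H175R2.famSplit_unbounded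
        split_not_M2 hb
    · exact unbounded_of @NC NC_mono NC_stable h (fun n => inferInstance) n1
        (fun n => Pool.Agent.H175R2.famSplit n) Pool.Agent.H175R2.famSplit_unbounded
        split_not_NC hb
    · exact unbounded_of @KDC KDC_mono KDC_stable h (V := TV) (fun n => inferInstance)
        (fun n hn => ⟨((⟨0, by omega⟩, ⟨0, by omega⟩), (true, 0))⟩)
        (fun n => hex n) hex_unbounded hex_not_KDC hb
    · exact unbounded_of @CP CP_mono CP_stable h (fun n => inferInstance)
        (fun n hn => ⟨⟨(⟨0, by omega⟩, ⟨1, by omega⟩), by simp⟩⟩)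
        (fun n => Pool.Agent.H175R2.famTrunc n) Pool.Agent.H175R2.famTrunc_unbounded
        trunc_not_CP hb
    · exact unbounded_of @D4 D4_mono D4_stable h (V := TV) (fun n => inferInstance)
        (fun n hn => ⟨((⟨0, by omega⟩, ⟨0, by omega⟩), (true, 0))⟩)
        (fun n => hex n) hex_unbounded hex_not_D4 hb
  · rintro (⟨⟨f⟩⟩ | ⟨⟨f⟩⟩ | ⟨⟨f⟩⟩)
    · exact bounded_of f (fun V _ _ G hG => dt_P4 V G hG)
    · exact bounded_of f (fun V _ _ G hG => dt_paw V G hG)
    · exact bounded_of f (fun V _ _ G hG => dt_diamond V G hG)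

end Pool.Agent.Results.MP_d0d08e_co.Classification
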